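import Pool.Agent.P.MP_1a0ecf_al.F.L3
import Pool.Agent.P.MP_1a0ecf_al.F.S1
import Pool.Agent.P.MP_1a0ecf_al.F.G6
import Pool.Agent.P.MP_1a0ecf_al.F.Face

/-! Twisting by a sign character: parameters of arbitrary sign. -/

namespace Pool.Agent.P.MP_1a0ecf_al.F.Sg

open Matrix MvPolynomial
open scoped Classical TensorProduct

noncomputable section

variable {X : Cox}

theorem exists_sign (L : Fin X.n → ℝ) (h : ∀ i j, IsConj (X.s i) (X.s j) → L i = L j) :
    ∃ γ : X.W →* ℤˣ, ∀ i, γ (X.s i) = if L i < 0 then -1 else 1 := by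
  have hl : X.M.IsLiftable fun i => (if L i < 0 then -1 else 1 : ℤˣ) := fun i j => by
    rcases Nat.even_or_odd (X.M i j) with e | e
    · obtain ⟨c, e⟩ := e.two_dvd
      rw [e, pow_mul, Int.units_sq, one_pow]
    · simp only [h i j (X.isConj_of_odd e), Int.units_mul_self, one_pow]
  exact ⟨X.cs.lift ⟨_, hl⟩, fun i => X.cs.lift_apply_simple hl i⟩

variable (γ : X.W →* ℤˣ)

/-- the sign in a commutative ring -/
def ep (R : Type) [CommRing R] : X.W →* R :=
  (Int.castRingHom R).toMonoidHom.comp ((Units.coeHom ℤ).comp γ)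

theorem ep_apply (R : Type) [CommRing R] (w : X.W) : ep γ R w = ((γ w : ℤ) : R) := rfl

theorem ep_cases (w : X.W) :
    (∀ (R : Type) [CommRing R], ep γ R w = 1) ∨ ∀ (R : Type) [CommRing R], ep γ R w = -1 := by
  rcases Int.units_eq_one_or (γ w) with h | h
  · exact Or.inl fun R _ => by simp [ep_apply, h]
  · exact Or.inr fun R _ => by simp [ep_apply, h]

theorem ep_sq (R : Type) [CommRing R] (w : X.W) : ep γ R w * ep γ R w = 1 := by
  rcases ep_cases γ w with h | h <;> simp [h]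

theorem ep_inv (R : Type) [CommRing R] (w : X.W) : ep γ R w⁻¹ = ep γ R w := by
  have : ep γ R w⁻¹ * ep γ R w = 1 := by rw [← map_mul, inv_mul_cancel, map_one]
  rw [← mul_one (ep γ R w⁻¹), ← ep_sq γ R w, ← mul_assoc, this, one_mul]

theorem ep_map {R R' : Type} [CommRing R] [CommRing R'] (f : R →+* R') (w : X.W) :
    f (ep γ R w) = ep γ R' w := map_intCast f _

/-- the twisted class function -/
def tw (χ : X.W → ℂ) (w : X.W) : ℂ := ep γ ℂ w * χ w

theorem tw_irr {χ : X.W → ℂ} (h : IsIrr χ) : IsIrr (tw γ χ) := by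
  have := (h.twist 1 fun _ => rfl).twist (ep γ ℂ) (ep_inv γ ℂ)
  simp only [inv_inv, MonoidHom.one_apply, one_mul] at this
  exact this

theorem ip_tw (f g : X.W → ℂ) : ip (tw γ f) (tw γ g) = ip f g := by
  unfold ip tw
  congr 1
  refine Finset.sum_congr rfl fun w _ => ?_
  rw [ep_inv, mul_mul_mul_comm, ep_sq, one_mul]

/-- the twisted parameter -/
def twW (κ : Wt X) : Wt X :=
  ⟨tw γ κ, fun t w ht => by
    simp only [tw, map_mul, κ.cl t w ht, ep_inv]
    rw [mul_right_comm (ep γ ℂ w), ep_sq, one_mul]⟩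

/-- the twisted group elements -/
def twG {A : Type} [Ring A] [Algebra ℂ A] (g : X.W →* A) : X.W →* A where
  toFun w := ep γ ℂ w • g w
  map_one' := by simp
  map_mul' w u := by rw [map_mul, map_mul, smul_mul_smul_comm]

theorem twG_apply {A : Type} [Ring A] [Algebra ℂ A] (g : X.W →* A) (w : X.W) :
    twG γ g w = ep γ ℂ w • g w := rfl

theorem rels_tw {κ κ' : Wt X} (hκ : ∀ t, κ' t = ep γ ℂ t * κ t) {A : Type} [Ring A] [Algebra ℂ A]
    {x y : X.Vc →ₗ[ℂ] A} {g : X.W →* A} (h : CRels X κ x y g) : CRels X κ' x y (twG γ g) where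
  gx w a := by rw [twG_apply, smul_mul_assoc, mul_smul_comm, h.gx]
  gy w a := by rw [twG_apply, smul_mul_assoc, mul_smul_comm, h.gy]
  xx := h.xx
  yy := h.yy
  yx a b := by
    rw [h.yx]
    refine Finset.sum_congr rfl fun t _ => ?_
    rw [twG_apply, smul_smul, hκ]
    congr 1
    linear_combination (-(κ t * X.BK ℂ (X.rc t) a * X.BK ℂ (X.rc t) b)) * ep_sq γ ℂ t

/-- the twisted Cherednik algebra -/
def twA {κ : Wt X} (A : CA X κ) : CA X (twW γ κ) where
  H := A.H
  x := A.x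
  y := A.y
  g := twG γ A.g
  rels := rels_tw γ (fun _ => rfl) A.rels
  gen S hx hy hg := A.gen S hx hy fun w => by
    have := S.smul_mem (hg w) (ep γ ℂ w)
    rwa [twG_apply, smul_smul, ep_sq, one_smul] at this
  lift B _ _ x y g h := by
    obtain ⟨φ, h1, h2, h3⟩ := A.lift B x y (twG γ g) (rels_tw γ (fun t => by
      change κ t = ep γ ℂ t * (ep γ ℂ t * κ t)
      rw [← mul_assoc, ep_sq, one_mul]) h)
    exact ⟨φ, h1, h2, fun w => by
      rw [twG_apply, map_smul, h3, twG_apply, smul_smul, ep_sq, one_smul]⟩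

/-- the projection of the twisted algebra -/
def twP {κ : Wt X} (A : CA X κ) : A.H →ₗ[ℂ] X.GA := (twA γ A).P

theorem chx_tw {κ : Wt X} (A : CA X κ) (χ : X.W → ℂ) (h : A.H) :
    chx (tw γ χ) (twP γ A h) = chx χ (A.P h) := by
  refine A.c3_ind (Q := fun h => chx (tw γ χ) (twP γ A h) = chx χ (A.P h)) ?_ ?_ ?_ ?_ h
  · simp only [map_zero]
  · intro a b ha hb
    simp only [map_add, ha, hb]
  · intro c a ha
    simp only [map_smul, ha]
  · intro p w p'
    have e : twP γ A (A.ex p * (ep γ ℂ w • A.g w) * A.ey p') = _ := (twA γ A).P_spec p w p'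
    rw [mul_smul_comm, smul_mul_assoc, map_smul] at e
    have e1 := congrArg (chx (tw γ χ)) e
    rw [map_smul, map_smul, chx_of, tw, smul_eq_mul, smul_eq_mul] at e1
    rw [CA.P_spec, map_smul, chx_of, smul_eq_mul]
    linear_combination ep γ ℂ w * e1 + (constantCoeff p * constantCoeff p' * χ w -
      chx (tw γ χ) (twP γ A (A.ex p * A.g w * A.ey p'))) * ep_sq γ ℂ w

theorem rel_tw {κ : Wt X} (A : CA X κ) (χ χ' : X.W → ℂ) :
    (twA γ A).rel (tw γ χ) (tw γ χ') ↔ A.rel χ χ' := by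
  change (∀ z ∈ Subalgebra.center ℂ A.H, chx (tw γ χ) (twP γ A z) * tw γ χ' 1 =
    chx (tw γ χ') (twP γ A z) * tw γ χ 1) ↔ _
  simp only [chx_tw, tw, map_one, one_mul]
  rfl

/-- the sign as a unit -/
def eu (R : Type) [CommRing R] (w : X.W) : Rˣ :=
  ⟨ep γ R w, ep γ R w, ep_sq γ R w, ep_sq γ R w⟩

section

variable {R H : Type} [CommRing R] [Ring H] [Algebra R H] (b : Module.Basis X.W R H)

/-- the twisted basis -/
def twB : Module.Basis X.W R H := b.unitsSMul (eu γ R)

theorem twB_apply (w : X.W) : twB γ b w = ep γ R w • b w := by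
  rw [twB, Module.Basis.unitsSMul_apply]
  rfl

theorem twB_repr (h : H) (w : X.W) : (twB γ b).repr h w = ep γ R w * b.repr h w := by
  rw [twB, Module.Basis.repr_unitsSMul]
  rfl

theorem le_tw : S.LeLR (twB γ b) = S.LeLR b := by
  unfold S.LeLR
  congr 1
  funext x y
  refine propext (exists₂_congr fun h h' => not_congr ?_)
  simp only [S.coord, S.vec]
  rw [twB_repr, twB_apply, mul_smul_comm, smul_mul_assoc, map_smul, Finsupp.smul_apply,
    smul_eq_mul]
  exact ((eu γ R x).mul_right_eq_zero).trans (eu γ R y).mul_right_eq_zero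

end

variable {L : Fin X.n → ℝ}

/-- the twisted Hecke algebra -/
def twK (hγ : ∀ i, γ (X.s i) = if L i < 0 then -1 else 1) (D : KL X ℝ L) :
    KL X ℝ fun i => |L i| where
  H := D.H
  T := twB γ D.T
  T_one := by rw [twB_apply, map_one, one_smul, D.T_one]
  T_up x i h := by
    rw [twB_apply, twB_apply, twB_apply, smul_mul_smul_comm, D.T_up x i h, map_mul (ep γ _)]
  T_down x i h := by
    rw [twB_apply, twB_apply, twB_apply, smul_mul_smul_comm, D.T_down x i h, map_mul (ep γ _),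
      smul_add, smul_smul, smul_smul]
    congr 2
    rw [ep_apply γ _ (X.s i), hγ]
    split_ifs with e
    · have e1 : vU |L i| = (vU (L i))⁻¹ := by
        rw [abs_of_neg e]
        exact Units.ext rfl
      rw [e1, inv_inv]
      push_cast
      ring
    · rw [abs_of_nonneg (not_lt.1 e)]
      push_cast
      ring
  bar := D.bar
  bar_smul := D.bar_smul
  bar_T x := by
    rw [twB_apply, twB_apply, D.bar_smul, ep_map, smul_mul_smul_comm, D.bar_T, ep_inv, ep_sq,
      one_smul]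
  C := twB γ D.C
  bar_C x := by rw [twB_apply, D.bar_smul, ep_map, D.bar_C]
  C_neg x y := by
    rw [twB_repr, twB_apply, twB_apply, ← smul_sub, map_smul, Finsupp.smul_apply, smul_eq_mul,
      ← mul_assoc, ← map_mul]
    rcases ep_cases γ (y * x) with h | h <;> rw [h]
    · rw [one_mul]
      exact D.C_neg x y
    · rw [neg_one_mul]
      exact (D.C_neg x y).neg

theorem Rel_tw (hγ : ∀ i, γ (X.s i) = if L i < 0 then -1 else 1) (D : KL X ℝ L)
    (χ χ' : X.W → ℂ) : (twK γ hγ D).Rel (tw γ χ) (tw γ χ') ↔ D.Rel χ χ' := by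
  have h1 : ∀ z, (twK γ hγ D).cell z = D.cell z := fun z => by
    have e : (twK γ hγ D).Le = D.Le := le_tw γ D.C
    ext y
    rw [KL.cell, KL.cell, Finset.mem_filter, Finset.mem_filter, KL.Sim, KL.Sim, e]
  have h2 : ∀ S, (twK γ hγ D).ch S = tw γ (D.ch S) := fun S => by
    funext w
    rw [tw, KL.ch, KL.ch, Finset.mul_sum]
    refine Finset.sum_congr rfl fun y _ => ?_
    change spc ℝ ((twB γ D.C).repr (twB γ D.T w * twB γ D.C y) y) = _
    rw [twB_repr, twB_apply, twB_apply, smul_mul_smul_comm, map_smul, Finsupp.smul_apply,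
      smul_eq_mul, map_mul, map_mul, map_mul, ep_map, ep_map]
    linear_combination (ep γ ℂ w * spc ℝ (D.C.repr (D.T w * D.C y) y)) * ep_sq γ ℂ y
  simp only [KL.Rel, KL.Fam, h1, h2, ip_tw]

/-- Parameters of arbitrary sign. -/
theorem good_signs (h : X.Good) (L : Fin X.n → ℝ) (κ : Wt X)
    (hκ : ∀ i, κ (X.s i) = (L i : ℂ) / 2) (hL : ∀ i j, IsConj (X.s i) (X.s j) → L i = L j)
    (D : KL X ℝ L) (A : CA X κ) {χ χ' : X.W → ℂ} (hχ : IsIrr χ) (hχ' : IsIrr χ') :
    A.rel χ χ' ↔ D.Rel χ χ' := by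
  obtain ⟨γ, hγ⟩ := exists_sign L hL
  rw [← rel_tw γ, ← Rel_tw γ hγ]
  refine h _ (fun i => abs_nonneg _) _ (fun i => ?_) _ _ _ _ (tw_irr γ hχ) (tw_irr γ hχ')
  change ep γ ℂ (X.s i) * κ (X.s i) = _
  rw [hκ, ep_apply, hγ]
  split_ifs with e
  · rw [abs_of_neg e]
    push_cast
    ring
  · rw [abs_of_nonneg (not_lt.1 e)]
    push_cast
    ring

end

end Pool.Agent.P.MP_1a0ecf_al.F.Sg
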