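import Pool.Agent.P.MP_1a0ecf_al.K4.Top
import Pool.Agent.P.MP_1a0ecf_al.K.All
import Pool.Agent.P.MP_1a0ecf_al.Sg.Tw

/-! The statement for real parameters of arbitrary sign. -/

namespace Pool.Agent.P.MP_1a0ecf_al.F.Sg

open scoped Classical

noncomputable section

theorem good (X : Cox) : X.Good := good_all K.klA K.klB K.klD K.klI (goodF K4.klf) X

theorem gm_real {n : ℕ} {M : CoxeterMatrix (Fin n)} {W : Type} [Group W] [Fintype W]
    {cs : CoxeterSystem M W} {ρ : Representation ℂ W (Fin n → ℂ)} (hρ : IsGeom cs ρ) {c : W → ℝ}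
    (hj : ∀ t w, cs.IsReflection t → c (w * t * w⁻¹) = c t) {H : Type} [Ring H]
    [Algebra (AddMonoidAlgebra ℤ (Gam cs c)) H]
    {T C : Module.Basis W (AddMonoidAlgebra ℤ (Gam cs c)) H} {bar : H →+* H}
    (hT : IsHecke cs (wt cs c) T) (hb : IsBar T bar) (hC : IsKL T bar C) {d d' : ℕ}
    {π : Representation ℂ W (Fin d → ℂ)} {π' : Representation ℂ W (Fin d' → ℂ)}
    (hπ : π.IsIrreducible) (hπ' : π'.IsIrreducible) :
    SameCM cs ρ c π π' ↔ ∃ z, Occurs T C z π ∧ Occurs T C z π' := by
  let X : Cox := { n := n, M := M, W := W, cs := cs, hM := bond_ne_zero cs }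
  let κ : Wt X := ⟨fun t => (c t : ℂ) / 2, fun t w ht => by rw [hj t w ht]⟩
  let E : KL X (Gam cs c) (wt cs c) :=
    { H := H
      T := T
      T_one := hT.1
      T_up := fun x i e => by
        have e1 := hT.2 x i
        rwa [if_pos e, add_zero] at e1
      T_down := fun x i e => by
        have e1 := hT.2 x i
        rwa [if_neg (not_lt.2 e.le)] at e1
      bar := bar
      bar_smul := fun r a => by
        induction r using AddMonoidAlgebra.induction_linear with
        | zero => simp
        | add a b ha hb => simp only [map_add, add_smul, ha, hb]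
        | single δ m =>
          have e : ∀ ε : Gam cs c, (AddMonoidAlgebra.single ε m : ZG (Gam cs c)) =
              m • AddMonoidAlgebra.single ε 1 := fun ε => by
            rw [AddMonoidAlgebra.smul_single, smul_eq_mul, mul_one]
          rw [barG, mapG_single, e δ, e (negAddMonoidHom δ), smul_assoc, smul_assoc, map_zsmul,
            hb.1]
          rfl
      bar_T := hb.2
      C := C
      bar_C := fun x => (hC x).1
      C_neg := fun x y γ hγ => (hC x).2 y γ hγ }
  have hκ : ∀ i, κ (X.s i) = ((fun i => c (cs.simple i)) i : ℂ) / 2 := fun _ => rfl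
  obtain ⟨D⟩ := exists_KL (X := X) (L := fun i => c (cs.simple i)) (p4_conj hκ)
  obtain ⟨A⟩ := exists_CA' X κ
  exact (p4_cm (X := X) hρ (fun _ _ => rfl) A hπ hπ').trans
    ((good_signs (good X) _ κ hκ (p4_conj hκ) D A ⟨d, π, hπ, rfl⟩ ⟨d', π', hπ', rfl⟩).trans
      (p4_kl (X := X) (fun _ => rfl) E D hπ hπ').symm)

end

end Pool.Agent.P.MP_1a0ecf_al.F.Sg
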